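import Pool.Agent.Lib.MP_71763b_co.Final

namespace Pool.Agent.Results.MP_71763b_co.ExactValue

open Pool.Agent.Lib.MP_71763b_co

theorem result (k m : ℕ) (h : (3 ≤ k ∧ 4 ≤ m) ∨ (k = 2 ∧ 7 ≤ m)) :
    ramseySet k m = {n | (m - 1) ^ k + 1 ≤ n} := by
  obtain ⟨r, rfl⟩ : ∃ r, m = r + 1 := ⟨m - 1, by omega⟩
  exact exact_value (by omega)

end Pool.Agent.Results.MP_71763b_co.ExactValue
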