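import Pool.Agent.Lib.MP_71763b_co.Three

namespace Pool.Agent.Results.MP_71763b_co.NoGapsFull

open Pool.Agent.Lib.MP_71763b_co

theorem result (k m : ℕ) (hk : 2 ≤ k) (hm : 3 ≤ m) (n : ℕ) (hn : n ∈ ramseySet k m) :
    n + 1 ∈ ramseySet k m := by
  rcases hm.eq_or_lt with rfl | h
  · exact no_gaps3 hk hn
  · obtain ⟨r, rfl⟩ : ∃ r, m = r + 1 := ⟨m - 1, by omega⟩
    exact no_gaps hk (by omega) hn

end Pool.Agent.Results.MP_71763b_co.NoGapsFull
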